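import Mathlib

set_option autoImplicit false

namespace Pool.Agent.H58.TreeAlpha

open SimpleGraph

universe u

variable {V : Type u} [Fintype V]

open Classical in
/-- `al G X` is the independence number of `G[X]`. -/
noncomputable def al (G : SimpleGraph V) (X : Set V) : ℕ :=
  ((Finset.univ : Finset (Finset V)).filter
    (fun S : Finset V => (S : Set V) ⊆ X ∧ G.IsIndepSet (S : Set V))).sup Finset.card

variable (G : SimpleGraph V)

lemma le_al {X : Set V} {S : Finset V} (h1 : (S : Set V) ⊆ X) (h2 : G.IsIndepSet (S : Set V)) :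
    S.card ≤ al G X := by
  classical
  unfold al
  exact Finset.le_sup (f := Finset.card) (by simp [h1, h2])

lemma exists_al (X : Set V) :
    ∃ S : Finset V, (S : Set V) ⊆ X ∧ G.IsIndepSet (S : Set V) ∧ S.card = al G X := by
  classical
  have hne : ((Finset.univ : Finset (Finset V)).filter
    (fun S : Finset V => (S : Set V) ⊆ X ∧ G.IsIndepSet (S : Set V))).Nonempty :=
    ⟨∅, by simp [SimpleGraph.IsIndepSet]⟩
  obtain ⟨S, hS, hS2⟩ := Finset.exists_mem_eq_sup _ hne Finset.card
  simp only [Finset.mem_filter, Finset.mem_univ, true_and] at hS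
  exact ⟨S, hS.1, hS.2, hS2.symm⟩

lemma al_le {X : Set V} {c : ℕ}
    (h : ∀ S : Finset V, (S : Set V) ⊆ X → G.IsIndepSet (S : Set V) → S.card ≤ c) :
    al G X ≤ c := by
  obtain ⟨S, h1, h2, h3⟩ := exists_al G X
  rw [← h3]
  exact h S h1 h2

lemma al_mono {X Y : Set V} (h : X ⊆ Y) : al G X ≤ al G Y :=
  al_le G fun _ h1 h2 => le_al G (h1.trans h) h2

lemma al_union (X Y : Set V) : al G (X ∪ Y) ≤ al G X + al G Y := by
  classical
  refine al_le G fun S h1 h2 => ?_
  have hX : (S.filter (· ∈ X)).card ≤ al G X := by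
    refine le_al G ?_ ?_
    · intro x hx
      simp only [Finset.coe_filter, Set.mem_ofPred_eq] at hx
      exact hx.2
    · refine Set.Pairwise.mono ?_ h2
      intro x hx
      simp only [Finset.coe_filter, Set.mem_ofPred_eq] at hx
      exact hx.1
  have hY : (S.filter (· ∉ X)).card ≤ al G Y := by
    refine le_al G ?_ ?_
    · intro x hx
      simp only [Finset.coe_filter, Set.mem_ofPred_eq] at hx
      rcases h1 hx.1 with h | h
      · exact absurd h hx.2
      · exact h
    · refine Set.Pairwise.mono ?_ h2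
      intro x hx
      simp only [Finset.coe_filter, Set.mem_ofPred_eq] at hx
      exact hx.1
  have := Finset.card_filter_add_card_filter_not (s := S) (fun x => x ∈ X)
  omega

lemma al_add_le {X Y Z : Set V} (hX : X ⊆ Z) (hY : Y ⊆ Z) (hdis : Disjoint X Y)
    (hno : ∀ x ∈ X, ∀ y ∈ Y, ¬ G.Adj x y) : al G X + al G Y ≤ al G Z := by
  classical
  obtain ⟨S, h1, h2, h3⟩ := exists_al G X
  obtain ⟨S', h1', h2', h3'⟩ := exists_al G Y
  have hd : Disjoint S S' := by
    rw [Finset.disjoint_left]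
    intro a ha hb
    exact Set.disjoint_left.mp hdis (h1 ha) (h1' hb)
  rw [← h3, ← h3', ← Finset.card_union_of_disjoint hd]
  refine le_al G ?_ ?_
  · rw [Finset.coe_union]
    exact Set.union_subset (h1.trans hX) (h1'.trans hY)
  · rw [Finset.coe_union]
    intro a ha b hb hab
    rcases ha with ha | ha <;> rcases hb with hb | hb
    · exact h2 ha hb hab
    · exact hno a (h1 ha) b (h1' hb)
    · intro h
      exact hno b (h1 hb) a (h1' ha) h.symm
    · exact h2' ha hb hab

lemma al_empty : al G (∅ : Set V) = 0 := by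
  obtain ⟨S, h1, h2, h3⟩ := exists_al G (∅ : Set V)
  rw [← h3]
  have : S = ∅ := by
    ext x
    constructor
    · intro hx
      exact absurd (h1 hx) (by simp)
    · intro hx
      simp at hx
  rw [this]; rfl

lemma al_singleton_le (v : V) : al G ({v} : Set V) ≤ 1 := by
  refine al_le G fun S h1 _ => ?_
  rw [Finset.card_le_one]
  intro a ha b hb
  have h1a := h1 ha
  have h1b := h1 hb
  simp only [Set.mem_singleton_iff] at h1a h1b
  rw [h1a, h1b]

lemma al_insert_le (v : V) (X : Set V) : al G (insert v X) ≤ al G X + 1 := by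
  have h := al_union G {v} X
  have h2 := al_singleton_le G v
  rw [Set.singleton_union] at h
  omega

/-- intermediate values of the independence number -/
lemma exists_between {W U : Set V} (hWU : W ⊆ U) {m : ℕ} (h1 : al G W ≤ m) (h2 : m ≤ al G U) :
    ∃ W' : Set V, W ⊆ W' ∧ W' ⊆ U ∧ al G W' = m := by
  classical
  have key : ∀ n : ℕ, ∀ W : Set V, W ⊆ U → al G W ≤ m → (U \ W).ncard = n →
      ∃ W' : Set V, W ⊆ W' ∧ W' ⊆ U ∧ al G W' = m := by
    intro n
    induction n with
    | zero =>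
      intro W hW h hn
      have hUW : U \ W = ∅ := by
        rwa [Set.ncard_eq_zero (Set.toFinite _)] at hn
      have : U ⊆ W := Set.sdiff_eq_empty.mp hUW
      have hEq : W = U := Set.Subset.antisymm hW this
      subst hEq
      exact ⟨W, subset_rfl, subset_rfl, le_antisymm h h2⟩
    | succ n ih =>
      intro W hW h hn
      rcases Nat.lt_or_ge (al G W) m with hlt | hge
      · have hne : (U \ W).Nonempty := by
          rw [Set.nonempty_iff_ne_empty]
          intro h0
          rw [h0] at hn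
          simp at hn
        obtain ⟨v, hvU, hvW⟩ := hne
        have hcard : (U \ insert v W).ncard = n := by
          have h3 : U \ insert v W = (U \ W) \ {v} := by
            ext x
            simp only [Set.mem_sdiff, Set.mem_insert_iff, Set.mem_singleton_iff]
            tauto
          rw [h3, Set.ncard_sdiff_singleton_of_mem (show v ∈ U \ W from ⟨hvU, hvW⟩), hn]
          rfl
        obtain ⟨W', h4, h5, h6⟩ := ih (insert v W) (Set.insert_subset hvU hW)
          (by have := al_insert_le G v W; omega) hcard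
        exact ⟨W', (Set.subset_insert v W).trans h4, h5, h6⟩
      · exact ⟨W, subset_rfl, hW, le_antisymm h hge⟩
  exact key _ W hWU h1 rfl

/-- `HasTD G U c R`: the graph `G[U]` has a (finite) tree decomposition all of whose bags have
independence number at most `c`, one of whose bags contains `R`. -/
def HasTD (U : Set V) (c : ℕ) (R : Set V) : Prop :=
  ∃ (ι : Type) (_ : Finite ι) (T : SimpleGraph ι) (bag : ι → Set V) (r : ι),
    T.IsTree ∧ (∀ t, bag t ⊆ U) ∧ (∀ v ∈ U, ∃ t, v ∈ bag t) ∧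
    (∀ u ∈ U, ∀ v ∈ U, G.Adj u v → ∃ t, u ∈ bag t ∧ v ∈ bag t) ∧
    (∀ v, (T.induce {t | v ∈ bag t}).Preconnected) ∧ (∀ t, al G (bag t) ≤ c) ∧ R ⊆ bag r

lemma HasTD.mono {U R R' : Set V} {c : ℕ} (h : HasTD G U c R) (hR : R' ⊆ R) : HasTD G U c R' := by
  obtain ⟨ι, hι, T, bag, r, h1, h2, h3, h4, h5, h6, h7⟩ := h
  exact ⟨ι, hι, T, bag, r, h1, h2, h3, h4, h5, h6, hR.trans h7⟩

lemma HasTD.single {U : Set V} {c : ℕ} (h : al G U ≤ c) : HasTD G U c U := by
  refine ⟨Unit, inferInstance, ⊥, fun _ => U, (), ?_, fun _ => subset_rfl, fun v hv => ⟨(), hv⟩,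
    fun u hu v hv _ => ⟨(), hu, hv⟩, ?_, fun _ => h, subset_rfl⟩
  · exact SimpleGraph.IsTree.of_subsingleton
  · intro v s t
    have : s = t := Subsingleton.elim s t
    rw [this]

lemma sum_acyclic {ι κ : Type} {T : SimpleGraph ι} {S : SimpleGraph κ} (hT : T.IsAcyclic)
    (hS : S.IsAcyclic) : (T ⊕g S).IsAcyclic := by
  rw [SimpleGraph.isAcyclic_iff_forall_adj_isBridge] at hT hS ⊢
  have key1 : ∀ {a : ι} {y : ι ⊕ κ} (p : (T ⊕g S).Walk (Sum.inl a) y), ∃ b : ι, y = Sum.inl b ∧
      ∃ q : T.Walk a b, ∀ x y, s(Sum.inl x, Sum.inl y) ∉ p.edges → s(x, y) ∉ q.edges := by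
    intro a y p
    generalize hx : (Sum.inl a : ι ⊕ κ) = z at p
    induction p generalizing a with
    | nil => exact ⟨a, hx.symm, .nil, by simp⟩
    | @cons u v w h p ih =>
      subst hx
      rcases v with v | v
      · obtain ⟨b, hb, q, hq⟩ := ih rfl
        have hadj : T.Adj a v := by simpa using h
        refine ⟨b, hb, SimpleGraph.Walk.cons hadj q, ?_⟩
        intro x y hxy
        simp only [SimpleGraph.Walk.edges_cons, List.mem_cons, not_or] at hxy ⊢
        refine ⟨?_, hq x y hxy.2⟩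
        intro h0
        apply hxy.1
        simp only [Sym2.eq_iff] at h0 ⊢
        rcases h0 with ⟨rfl, rfl⟩ | ⟨rfl, rfl⟩ <;> simp
      · simp at h
  have key2 : ∀ {a : κ} {y : ι ⊕ κ} (p : (T ⊕g S).Walk (Sum.inr a) y), ∃ b : κ, y = Sum.inr b ∧
      ∃ q : S.Walk a b, ∀ x y, s(Sum.inr x, Sum.inr y) ∉ p.edges → s(x, y) ∉ q.edges := by
    intro a y p
    generalize hx : (Sum.inr a : ι ⊕ κ) = z at p
    induction p generalizing a with
    | nil => exact ⟨a, hx.symm, .nil, by simp⟩
    | @cons u v w h p ih =>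
      subst hx
      rcases v with v | v
      · simp at h
      · obtain ⟨b, hb, q, hq⟩ := ih rfl
        have hadj : S.Adj a v := by simpa using h
        refine ⟨b, hb, SimpleGraph.Walk.cons hadj q, ?_⟩
        intro x y hxy
        simp only [SimpleGraph.Walk.edges_cons, List.mem_cons, not_or] at hxy ⊢
        refine ⟨?_, hq x y hxy.2⟩
        intro h0
        apply hxy.1
        simp only [Sym2.eq_iff] at h0 ⊢
        rcases h0 with ⟨rfl, rfl⟩ | ⟨rfl, rfl⟩ <;> simp
  rintro (a | a) (b | b) hab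
  · have h1 : T.Adj a b := by simpa using hab
    have h2 := hT h1
    rw [SimpleGraph.isBridge_iff_forall_walk_mem_edges] at h2 ⊢
    intro p
    obtain ⟨b', hb', q, hq⟩ := key1 p
    simp only [Sum.inl.injEq] at hb'
    subst hb'
    by_contra hcon
    exact hq a b hcon (h2 q)
  · simp at hab
  · simp at hab
  · have h1 : S.Adj a b := by simpa using hab
    have h2 := hS h1
    rw [SimpleGraph.isBridge_iff_forall_walk_mem_edges] at h2 ⊢
    intro p
    obtain ⟨b', hb', q, hq⟩ := key2 p
    simp only [Sum.inr.injEq] at hb'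
    subst hb'
    by_contra hcon
    exact hq a b hcon (h2 q)

/-- glue two trees by an edge -/
lemma glue_tree {ι κ : Type} {T : SimpleGraph ι} {S : SimpleGraph κ} (hT : T.IsTree)
    (hS : S.IsTree) (a : ι) (b : κ) :
    ((T ⊕g S) ⊔ SimpleGraph.edge (Sum.inl a) (Sum.inr b)).IsTree := by
  refine ⟨hT.1.sum_sup_edge hS.1, ?_⟩
  exact SimpleGraph.IsAcyclic.sup_edge_of_not_reachable
    (SimpleGraph.not_reachable_sum_inl_inr a b) (sum_acyclic hT.2 hS.2)

lemma HasTD.glue {U U' R R' : Set V} {c : ℕ} (h : HasTD G U c R) (h' : HasTD G U' c R')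
    (hR : U ∩ U' ⊆ R) (hR' : U ∩ U' ⊆ R')
    (hno : ∀ x ∈ U \ U', ∀ y ∈ U' \ U, ¬ G.Adj x y) : HasTD G (U ∪ U') c R := by
  classical
  obtain ⟨ι, hι, T, bag, r, h1, h2, h3, h4, h5, h6, h7⟩ := h
  obtain ⟨κ, hκ, S, bag', r', h1', h2', h3', h4', h5', h6', h7'⟩ := h'
  have hadjT : ∀ a b, T.Adj a b →
      ((T ⊕g S) ⊔ SimpleGraph.edge (Sum.inl r) (Sum.inr r')).Adj (Sum.inl a) (Sum.inl b) := by
    intro a b hab
    left
    simpa using hab
  have hadjS : ∀ a b, S.Adj a b →
      ((T ⊕g S) ⊔ SimpleGraph.edge (Sum.inl r) (Sum.inr r')).Adj (Sum.inr a) (Sum.inr b) := by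
    intro a b hab
    left
    simpa using hab
  refine ⟨ι ⊕ κ, inferInstance, (T ⊕g S) ⊔ SimpleGraph.edge (Sum.inl r) (Sum.inr r'),
    Sum.elim bag bag', Sum.inl r, glue_tree h1 h1' r r', ?_, ?_, ?_, ?_, ?_, h7⟩
  · rintro (t | t)
    · exact (h2 t).trans Set.subset_union_left
    · exact (h2' t).trans Set.subset_union_right
  · rintro v (hv | hv)
    · obtain ⟨t, ht⟩ := h3 v hv
      exact ⟨Sum.inl t, ht⟩
    · obtain ⟨t, ht⟩ := h3' v hv
      exact ⟨Sum.inr t, ht⟩
  · intro u hu v hv huv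
    by_cases hu1 : u ∈ U
    · by_cases hv1 : v ∈ U
      · obtain ⟨t, ht⟩ := h4 u hu1 v hv1 huv
        exact ⟨Sum.inl t, ht⟩
      · have hv2 : v ∈ U' := by
          rcases hv with h | h
          · exact absurd h hv1
          · exact h
        by_cases hu2 : u ∈ U'
        · obtain ⟨t, ht⟩ := h4' u hu2 v hv2 huv
          exact ⟨Sum.inr t, ht⟩
        · exact absurd huv (hno u ⟨hu1, hu2⟩ v ⟨hv2, hv1⟩)
    · have hu2 : u ∈ U' := by
        rcases hu with h | h
        · exact absurd h hu1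
        · exact h
      by_cases hv2 : v ∈ U'
      · obtain ⟨t, ht⟩ := h4' u hu2 v hv2 huv
        exact ⟨Sum.inr t, ht⟩
      · have hv1 : v ∈ U := by
          rcases hv with h | h
          · exact h
          · exact absurd h hv2
        exact absurd huv.symm (hno v ⟨hv1, hv2⟩ u ⟨hu2, hu1⟩)
  · intro v
    set GG := (T ⊕g S) ⊔ SimpleGraph.edge (Sum.inl r) (Sum.inr r') with hGG
    set X : Set (ι ⊕ κ) := {t | v ∈ Sum.elim bag bag' t} with hX
    -- reachability inside the left part
    have hL : ∀ (a b : ι) (ha : v ∈ bag a) (hb : v ∈ bag b),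
        (GG.induce X).Reachable ⟨Sum.inl a, ha⟩ ⟨Sum.inl b, hb⟩ := by
      intro a b ha hb
      have h := h5 v ⟨a, ha⟩ ⟨b, hb⟩
      let f : T.induce {t | v ∈ bag t} →g GG.induce X :=
        { toFun := fun t => ⟨Sum.inl t.1, t.2⟩
          map_rel' := by
            intro x y hxy
            exact hadjT _ _ hxy }
      exact h.map f
    have hRt : ∀ (a b : κ) (ha : v ∈ bag' a) (hb : v ∈ bag' b),
        (GG.induce X).Reachable ⟨Sum.inr a, ha⟩ ⟨Sum.inr b, hb⟩ := by
      intro a b ha hb
      have h := h5' v ⟨a, ha⟩ ⟨b, hb⟩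
      let f : S.induce {t | v ∈ bag' t} →g GG.induce X :=
        { toFun := fun t => ⟨Sum.inr t.1, t.2⟩
          map_rel' := by
            intro x y hxy
            exact hadjS _ _ hxy }
      exact h.map f
    have hLR : ∀ (a : ι) (b : κ) (ha : v ∈ bag a) (hb : v ∈ bag' b),
        (GG.induce X).Reachable ⟨Sum.inl a, ha⟩ ⟨Sum.inr b, hb⟩ := by
      intro a b ha hb
      have hv : v ∈ U ∩ U' := ⟨h2 a ha, h2' b hb⟩
      have hr : v ∈ bag r := h7 (hR hv)
      have hr' : v ∈ bag' r' := h7' (hR' hv)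
      refine (hL a r ha hr).trans (SimpleGraph.Reachable.trans ?_ (hRt r' b hr' hb))
      refine SimpleGraph.Adj.reachable ?_
      change GG.Adj (Sum.inl r) (Sum.inr r')
      right
      simp [SimpleGraph.edge_adj]
    rintro ⟨s | s, hs⟩ ⟨t | t, ht⟩
    · exact hL s t hs ht
    · exact hLR s t hs ht
    · exact (hLR t s ht hs).symm
    · exact hRt s t hs ht
  · rintro (t | t)
    · exact h6 t
    · exact h6' t

end Pool.Agent.H58.TreeAlpha
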