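import Mathlib

set_option autoImplicit false

namespace Pool.Agent.H58.BalancedEdge

open SimpleGraph

variable {N : Type} {T : SimpleGraph N}

/-- nodes on the `x`-side of the edge `xy` -/
def R (T : SimpleGraph N) (x y : N) : Set N :=
  {s | (T.deleteEdges {s(x, y)}).Reachable x s}

lemma mem_R {x y s : N} : s ∈ R T x y ↔ ∃ p : T.Walk x s, s(x, y) ∉ p.edges :=
  SimpleGraph.reachable_deleteEdges_iff_exists_walk

lemma self_mem_R (x y : N) : x ∈ R T x y := SimpleGraph.Reachable.refl _

lemma R_cover (hT : T.Connected) {x y : N} (s : N) : s ∈ R T x y ∨ s ∈ R T y x := by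
  obtain ⟨p⟩ := hT x s
  have key : ∀ {a b : N} (q : T.Walk a b), (a ∈ R T x y ∨ a ∈ R T y x) →
      (b ∈ R T x y ∨ b ∈ R T y x) := by
    intro a b q
    induction q with
    | nil => exact id
    | @cons u v w h q ih =>
      intro hu
      apply ih
      by_cases he : s(u, v) = s(x, y)
      · rw [Sym2.eq_iff] at he
        rcases he with ⟨rfl, rfl⟩ | ⟨rfl, rfl⟩
        · exact Or.inr (self_mem_R _ _)
        · exact Or.inl (self_mem_R _ _)
      · rcases hu with hu | hu
        · left
          refine SimpleGraph.Reachable.trans hu (SimpleGraph.Adj.reachable ?_)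
          rw [SimpleGraph.deleteEdges_adj]
          exact ⟨h, by simpa using he⟩
        · right
          refine SimpleGraph.Reachable.trans hu (SimpleGraph.Adj.reachable ?_)
          rw [SimpleGraph.deleteEdges_adj]
          refine ⟨h, ?_⟩
          rw [Set.mem_singleton_iff, Sym2.eq_swap (a := y)]
          exact he
  exact key p (Or.inl (self_mem_R _ _))

lemma R_disjoint (hT : T.IsAcyclic) {x y : N} (hxy : T.Adj x y) {s : N} (h1 : s ∈ R T x y)
    (h2 : s ∈ R T y x) : False := by
  have hb := SimpleGraph.isAcyclic_iff_forall_adj_isBridge.mp hT hxy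
  rw [SimpleGraph.isBridge_iff] at hb
  apply hb
  refine SimpleGraph.Reachable.trans h1 ?_
  have : (T.deleteEdges {s(y, x)}) = (T.deleteEdges {s(x, y)}) := by
    rw [Sym2.eq_swap]
  unfold R at h2
  rw [Set.mem_ofPred_eq, this] at h2
  exact h2.symm

/-- every node other than `y` lies on the far side of some edge at `y` -/
lemma exists_branch (hT : T.Connected) {y s : N} (hs : s ≠ y) :
    ∃ w, T.Adj y w ∧ s ∈ R T w y := by
  classical
  obtain ⟨p, hp⟩ := (hT y s).exists_isPath
  cases p with
  | nil => exact absurd rfl hs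
  | @cons _ w _ h q =>
    refine ⟨w, h, ?_⟩
    rw [mem_R]
    refine ⟨q, ?_⟩
    rw [SimpleGraph.Walk.cons_isPath_iff] at hp
    intro hcon
    exact hp.2 (SimpleGraph.Walk.snd_mem_support_of_mem_edges q hcon)

lemma R_subset (hT : T.IsAcyclic) {x y w : N} (hyw : T.Adj y w) (hwx : w ≠ x) :
    R T w y ⊆ R T y x := by
  classical
  intro s hs
  rw [mem_R] at hs ⊢
  obtain ⟨p, hp⟩ := hs
  refine ⟨SimpleGraph.Walk.cons hyw p, ?_⟩
  rw [SimpleGraph.Walk.edges_cons, List.mem_cons, not_or]
  refine ⟨?_, ?_⟩
  · rw [Sym2.eq_iff]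
    rintro (⟨-, h⟩ | ⟨h, -⟩)
    · exact hwx h.symm
    · exact hyw.ne h
  · intro hcon
    have hy : y ∈ p.support := SimpleGraph.Walk.fst_mem_support_of_mem_edges p hcon
    have h1 : y ∈ R T w y := by
      rw [mem_R]
      refine ⟨p.takeUntil y hy, ?_⟩
      intro h2
      exact hp (SimpleGraph.Walk.edges_takeUntil_subset_edges p hy h2)
    exact R_disjoint hT hyw.symm h1 (self_mem_R _ _)

lemma R_ssubset_ncard [Finite N] (hT : T.IsAcyclic) {x y w : N} (hyw : T.Adj y w) (hwx : w ≠ x) :
    (R T w y).ncard < (R T y x).ncard := by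
  refine Set.ncard_lt_ncard ⟨R_subset hT hyw hwx, ?_⟩ (Set.toFinite _)
  intro h
  exact R_disjoint hT hyw.symm (h (self_mem_R y x)) (self_mem_R _ _)

/-- Balanced edge lemma for trees of maximum degree at most three whose leaves are labelled. -/
theorem balanced {V : Type*} [Finite N] (hT : T.IsTree)
    (hdeg : ∀ t, (T.neighborSet t).ncard ≤ 3) (L : V → N) (hL : Function.Injective L)
    (hleaf : ∀ v, (T.neighborSet (L v)).ncard = 1) (I : Finset V) (hI : 2 ≤ I.card)
    [∀ x y, DecidablePred (fun v => L v ∈ R T x y)] :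
    ∃ x y, T.Adj x y ∧ I.card ≤ 3 * (I.filter (fun v => L v ∈ R T x y)).card ∧
      I.card ≤ 3 * (I.filter (fun v => L v ∈ R T y x)).card := by
  classical
  by_contra hcon
  push Not at hcon
  have key : ∀ n : ℕ, ∀ x y, T.Adj x y → 3 * (I.filter (fun v => L v ∈ R T x y)).card < I.card →
      (R T y x).ncard = n → False := by
    intro n
    induction n using Nat.strong_induction_on with
    | _ n ih =>
      intro x y hxy hlight hn
      have hall : ∀ w, T.Adj y w → 3 * (I.filter (fun v => L v ∈ R T w y)).card < I.card := by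
        intro w hyw
        by_cases hwx : w = x
        · rw [hwx]; exact hlight
        · by_contra hnot
          have h1 := hcon w y hyw.symm (not_lt.mp hnot)
          refine ih (R T w y).ncard ?_ y w hyw h1 rfl
          rw [← hn]
          exact R_ssubset_ncard hT.2 hyw hwx
      set nb : Finset N := (Set.toFinite (T.neighborSet y)).toFinset with hnb
      have hnbcard : nb.card = (T.neighborSet y).ncard := by
        rw [hnb, Set.ncard_eq_toFinset_card _ (Set.toFinite _)]
      have hcov : I ⊆ nb.biUnion (fun w => I.filter (fun v => L v ∈ R T w y)) ∪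
          I.filter (fun v => L v = y) := by
        intro v hv
        by_cases h : L v = y
        · exact Finset.mem_union_right _ (Finset.mem_filter.mpr ⟨hv, h⟩)
        · obtain ⟨w, hw1, hw2⟩ := exists_branch hT.1 (s := L v) (y := y) h
          refine Finset.mem_union_left _ (Finset.mem_biUnion.mpr ⟨w, ?_, ?_⟩)
          · simp [hnb, hw1]
          · exact Finset.mem_filter.mpr ⟨hv, hw2⟩
      have h1 : I.card ≤ ∑ w ∈ nb, (I.filter (fun v => L v ∈ R T w y)).card +
          (I.filter (fun v => L v = y)).card := by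
        refine le_trans (Finset.card_le_card hcov) (le_trans (Finset.card_union_le _ _) ?_)
        exact Nat.add_le_add_right Finset.card_biUnion_le _
      have h2 : ∑ w ∈ nb, 3 * (I.filter (fun v => L v ∈ R T w y)).card ≤ nb.card * (I.card - 1) := by
        rw [← smul_eq_mul]
        refine Finset.sum_le_card_nsmul _ _ _ fun w hw => ?_
        have hw' : T.Adj y w := by simpa [hnb] using hw
        have := hall w hw'
        omega
      rw [← Finset.mul_sum] at h2
      have h3 : (I.filter (fun v => L v = y)).card ≤ 1 := by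
        rw [Finset.card_le_one]
        intro a ha b hb
        exact hL ((Finset.mem_filter.mp ha).2.trans (Finset.mem_filter.mp hb).2.symm)
      rcases Nat.eq_zero_or_pos (I.filter (fun v => L v = y)).card with h0 | hpos
      · have hd := hdeg y
        rw [← hnbcard] at hd
        have h4 : nb.card * (I.card - 1) ≤ 3 * (I.card - 1) := Nat.mul_le_mul_right _ hd
        omega
      · obtain ⟨v, hv⟩ := Finset.card_pos.mp hpos
        have hd := hleaf v
        rw [(Finset.mem_filter.mp hv).2, ← hnbcard] at hd
        rw [hd] at h2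
        omega
  obtain ⟨a, ha, b, hb, hab⟩ := Finset.one_lt_card.mp (by omega : 1 < I.card)
  have hne : L a ≠ L b := fun h => hab (hL h)
  obtain ⟨w, hw, -⟩ := exists_branch hT.1 (s := L b) (y := L a) hne.symm
  rcases Nat.lt_or_ge (3 * (I.filter (fun v => L v ∈ R T (L a) w)).card) I.card with h | h
  · exact key _ (L a) w hw h rfl
  · exact key _ w (L a) hw.symm (hcon (L a) w hw h) rfl

end Pool.Agent.H58.BalancedEdge
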