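import Mathlib

set_option autoImplicit false

namespace Pool.Agent.H58.SpectralMin

open Matrix

/-- the largest real spectral value of a real symmetric matrix dominates the Rayleigh form -/
lemma posSemidef_sub {n : Type*} [Fintype n] [DecidableEq n] {A : Matrix n n ℝ}
    (hA : A.IsHermitian) :
    (((sSup (spectrum ℝ A)) • (1 : Matrix n n ℝ)) - A).PosSemidef := by
  have hbdd : BddAbove (spectrum ℝ A) := by
    rw [hA.spectrum_real_eq_range_eigenvalues]
    exact (Set.finite_range _).bddAbove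
  rw [Matrix.posSemidef_iff_isHermitian_and_spectrum_nonneg]
  refine ⟨?_, ?_⟩
  · refine Matrix.IsHermitian.sub ?_ hA
    rw [Matrix.IsHermitian, Matrix.conjTranspose_smul, Matrix.conjTranspose_one]
    simp
  · intro x hx
    have h1 : (algebraMap ℝ (Matrix n n ℝ)) (sSup (spectrum ℝ A)) =
        (sSup (spectrum ℝ A)) • (1 : Matrix n n ℝ) := by
      rw [Algebra.algebraMap_eq_smul_one]
    rw [← h1, ← spectrum.singleton_sub_eq] at hx
    obtain ⟨a, ha, b, hb, hab⟩ := Set.mem_sub.mp hx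
    rw [Set.mem_singleton_iff] at ha
    subst ha
    have := le_csSup hbdd hb
    simp only [Set.mem_setOf_eq]
    linarith

lemma rayleigh_le {n : Type*} [Fintype n] [DecidableEq n] {A : Matrix n n ℝ}
    (hA : A.IsHermitian) (x : n → ℝ) :
    x ⬝ᵥ (A *ᵥ x) ≤ sSup (spectrum ℝ A) * (x ⬝ᵥ x) := by
  have h := (posSemidef_sub hA).dotProduct_mulVec_nonneg x
  simp only [star_trivial, Matrix.sub_mulVec, Matrix.smul_mulVec, Matrix.one_mulVec,
    dotProduct_sub, dotProduct_smul, smul_eq_mul] at h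
  linarith

lemma rayleigh_eq {n : Type*} [Fintype n] [DecidableEq n] {A : Matrix n n ℝ}
    (hA : A.IsHermitian) (x : n → ℝ)
    (h : sSup (spectrum ℝ A) * (x ⬝ᵥ x) ≤ x ⬝ᵥ (A *ᵥ x)) :
    A *ᵥ x = sSup (spectrum ℝ A) • x := by
  have h0 : star x ⬝ᵥ ((((sSup (spectrum ℝ A)) • (1 : Matrix n n ℝ)) - A) *ᵥ x) = 0 := by
    have h1 := (posSemidef_sub hA).dotProduct_mulVec_nonneg x
    have h2 : star x ⬝ᵥ ((((sSup (spectrum ℝ A)) • (1 : Matrix n n ℝ)) - A) *ᵥ x) =
        sSup (spectrum ℝ A) * (x ⬝ᵥ x) - x ⬝ᵥ (A *ᵥ x) := by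
      simp only [star_trivial, Matrix.sub_mulVec, Matrix.smul_mulVec, Matrix.one_mulVec,
        dotProduct_sub, dotProduct_smul, smul_eq_mul]
    rw [h2] at h1 ⊢
    linarith
  rw [(posSemidef_sub hA).dotProduct_mulVec_zero_iff] at h0
  rw [Matrix.sub_mulVec, Matrix.smul_mulVec, Matrix.one_mulVec, sub_eq_zero] at h0
  exact h0.symm

lemma spectrum_le_of_rowSum {n : Type*} [Fintype n] [DecidableEq n] [Nonempty n]
    {A : Matrix n n ℝ} {d : ℝ}
    (hnn : ∀ i j, 0 ≤ A i j) (hrow : ∀ i, ∑ j, A i j = d) {μ : ℝ} (hμ : μ ∈ spectrum ℝ A) :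
    μ ≤ d := by
  have hμ' : Module.End.HasEigenvalue (Matrix.toLin' A) μ := by
    rw [Module.End.hasEigenvalue_iff_mem_spectrum, Matrix.spectrum_toLin']
    exact hμ
  obtain ⟨v, hv⟩ := hμ'.exists_hasEigenvector
  have hv1 : A *ᵥ v = μ • v := by
    have := hv.apply_eq_smul
    rwa [Matrix.toLin'_apply] at this
  have hv0 : v ≠ 0 := hv.2
  obtain ⟨i, -, hi⟩ := Finset.exists_max_image Finset.univ (fun i => |v i|) Finset.univ_nonempty
  have hipos : 0 < |v i| := by
    by_contra hcon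
    apply hv0
    funext j
    have := hi j (Finset.mem_univ j)
    have h2 : |v j| ≤ 0 := le_trans this (not_lt.mp hcon)
    simpa using h2
  have h1 : μ * v i = ∑ j, A i j * v j := by
    have := congrFun hv1 i
    simp only [Matrix.mulVec, dotProduct, Pi.smul_apply, smul_eq_mul] at this
    exact this.symm
  have h2 : |μ * v i| ≤ d * |v i| := by
    rw [h1, ← hrow i, Finset.sum_mul]
    refine le_trans (Finset.abs_sum_le_sum_abs _ _) (Finset.sum_le_sum fun j _ => ?_)
    rw [abs_mul, abs_of_nonneg (hnn i j)]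
    exact mul_le_mul_of_nonneg_left (hi j (Finset.mem_univ j)) (hnn i j)
  rw [abs_mul] at h2
  have h3 : |μ| ≤ d := le_of_mul_le_mul_right h2 hipos
  exact le_trans (le_abs_self μ) h3

variable {V : Type*} [Fintype V] [DecidableEq V]

lemma one_dot_adj (G : SimpleGraph V) [DecidableRel G.Adj] :
    (fun _ => (1 : ℝ)) ⬝ᵥ (G.adjMatrix ℝ *ᵥ (fun _ => (1 : ℝ))) = 2 * (G.edgeFinset.card : ℝ) := by
  have h : ∀ v, (G.adjMatrix ℝ *ᵥ (fun _ => (1 : ℝ))) v = (G.degree v : ℝ) := by
    intro v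
    have := SimpleGraph.adjMatrix_mulVec_const_apply (α := ℝ) (G := G) (a := 1) (v := v)
    simpa [Function.const] using this
  simp only [dotProduct, h, one_mul]
  have := G.sum_degrees_eq_twice_card_edges
  exact_mod_cast this

lemma isHermitian_adj (G : SimpleGraph V) [DecidableRel G.Adj] :
    (G.adjMatrix ℝ).IsHermitian := by
  rw [Matrix.IsHermitian, Matrix.conjTranspose]
  ext i j
  simp [SimpleGraph.adjMatrix_apply, G.adj_comm]

lemma two_mul_edges_le (G : SimpleGraph V) [DecidableRel G.Adj] :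
    2 * (G.edgeFinset.card : ℝ) ≤ sSup (spectrum ℝ (G.adjMatrix ℝ)) * (Fintype.card V : ℝ) := by
  have h := rayleigh_le (isHermitian_adj G) (fun _ => (1 : ℝ))
  rw [one_dot_adj] at h
  simpa [dotProduct] using h

/-- equality forces regularity -/
lemma degree_eq_of_le (G : SimpleGraph V) [DecidableRel G.Adj]
    (h : sSup (spectrum ℝ (G.adjMatrix ℝ)) * (Fintype.card V : ℝ) ≤ 2 * (G.edgeFinset.card : ℝ))
    (v : V) : (G.degree v : ℝ) = sSup (spectrum ℝ (G.adjMatrix ℝ)) := by
  have h1 := rayleigh_eq (isHermitian_adj G) (fun _ => (1 : ℝ)) (by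
    rw [one_dot_adj]; simpa [dotProduct] using h)
  have h2 := congrFun h1 v
  have h3 := SimpleGraph.adjMatrix_mulVec_const_apply (α := ℝ) (G := G) (a := 1) (v := v)
  simp only [Pi.smul_apply, smul_eq_mul, mul_one] at h2
  rw [← h2]
  simpa [Function.const] using h3.symm

lemma sSup_spectrum_of_regular [Nonempty V] (G : SimpleGraph V) [DecidableRel G.Adj] {d : ℕ}
    (hd : G.IsRegularOfDegree d) : sSup (spectrum ℝ (G.adjMatrix ℝ)) ≤ d := by
  have hne : (spectrum ℝ (G.adjMatrix ℝ)).Nonempty := by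
    rw [(isHermitian_adj G).spectrum_real_eq_range_eigenvalues]
    exact Set.range_nonempty _
  refine csSup_le hne fun μ hμ => ?_
  refine spectrum_le_of_rowSum (A := G.adjMatrix ℝ) ?_ ?_ hμ
  · intro i j
    rw [SimpleGraph.adjMatrix_apply]
    split_ifs <;> norm_num
  · intro i
    have h3 := SimpleGraph.adjMatrix_mulVec_const_apply (α := ℝ) (G := G) (a := 1) (v := i)
    rw [hd i] at h3
    simpa [Matrix.mulVec, dotProduct, Function.const] using h3

end Pool.Agent.H58.SpectralMin
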