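import Mathlib
import Pool.Agent.H58.SpectralMin

set_option autoImplicit false

namespace Pool.Agent.H58.CircMin

open SimpleGraph Pool.Agent.H58.SpectralMin

/-- circulant graph on `4k+1` vertices with jumps `1..k` -/
def circ (k : ℕ) : SimpleGraph (Fin (4 * k + 1)) :=
  SimpleGraph.circulantGraph {i : Fin (4 * k + 1) | 1 ≤ i.val ∧ i.val ≤ k}

def jumps (k : ℕ) : Finset (Fin (4 * k + 1)) :=
  Finset.univ.filter (fun i => i.val ∈ (Finset.Icc 1 k ∪ Finset.Icc (3 * k + 1) (4 * k)))

lemma card_jumps (k : ℕ) : (jumps k).card = 2 * k := by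
  have h : (jumps k).map Fin.valEmbedding = Finset.Icc 1 k ∪ Finset.Icc (3 * k + 1) (4 * k) := by
    ext j
    simp only [jumps, Finset.mem_map, Finset.mem_filter, Finset.mem_univ, true_and,
      Fin.valEmbedding_apply]
    constructor
    · rintro ⟨a, ha, rfl⟩
      exact ha
    · intro hj
      refine ⟨⟨j, ?_⟩, hj, rfl⟩
      simp only [Finset.mem_union, Finset.mem_Icc] at hj
      omega
  rw [← Finset.card_map Fin.valEmbedding, h, Finset.card_union_of_disjoint]
  · simp
    omega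
  · rw [Finset.disjoint_left]
    intro a ha hb
    simp only [Finset.mem_Icc] at ha hb
    omega

lemma adj_iff (k : ℕ) (u v : Fin (4 * k + 1)) : (circ k).Adj u v ↔ (v - u) ∈ jumps k := by
  unfold circ jumps
  rw [SimpleGraph.circulantGraph_adj]
  simp only [Set.mem_setOf_eq, Finset.mem_filter, Finset.mem_univ, true_and, Finset.mem_union,
    Finset.mem_Icc]
  have h1 : (u - v).val = if v.val ≤ u.val then u.val - v.val else 4 * k + 1 + u.val - v.val := by
    have hu := u.isLt
    have hv := v.isLt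
    rw [Fin.sub_def]
    simp only
    split_ifs with h
    · rw [show 4 * k + 1 - v.val + u.val = (u.val - v.val) + (4 * k + 1) by omega,
        Nat.add_mod_right, Nat.mod_eq_of_lt (by omega)]
    · rw [Nat.mod_eq_of_lt (by omega)]
      omega
  have h2 : (v - u).val = if u.val ≤ v.val then v.val - u.val else 4 * k + 1 + v.val - u.val := by
    have hu := u.isLt
    have hv := v.isLt
    rw [Fin.sub_def]
    simp only
    split_ifs with h
    · rw [show 4 * k + 1 - u.val + v.val = (v.val - u.val) + (4 * k + 1) by omega,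
        Nat.add_mod_right, Nat.mod_eq_of_lt (by omega)]
    · rw [Nat.mod_eq_of_lt (by omega)]
      omega
  have h3 : u = v ↔ u.val = v.val := Fin.ext_iff
  rw [h3, h1, h2]
  have hu := u.isLt
  have hv := v.isLt
  split_ifs <;> omega

lemma regular (k : ℕ) [DecidableRel (circ k).Adj] : (circ k).IsRegularOfDegree (2 * k) := by
  intro v
  have h : (circ k).neighborFinset v = (jumps k).map (addLeftEmbedding v) := by
    ext w
    rw [SimpleGraph.mem_neighborFinset, adj_iff, Finset.mem_map]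
    constructor
    · intro h
      exact ⟨w - v, h, by simp [addLeftEmbedding]⟩
    · rintro ⟨a, ha, rfl⟩
      simpa [addLeftEmbedding] using ha
  rw [← SimpleGraph.card_neighborFinset_eq_degree, h, Finset.card_map, card_jumps]

lemma card_edges (k : ℕ) [DecidableRel (circ k).Adj] :
    (circ k).edgeFinset.card = k * (4 * k + 1) := by
  have h := (circ k).sum_degrees_eq_twice_card_edges
  have h2 : ∀ v, (circ k).degree v = 2 * k := fun v => regular k v
  simp only [h2, Finset.sum_const, Finset.card_univ, Fintype.card_fin, smul_eq_mul] at h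
  have : 2 * (k * (4 * k + 1)) = 2 * (circ k).edgeFinset.card := by
    rw [← h]; ring
  omega

lemma connected (k : ℕ) (hk : 1 ≤ k) : (circ k).Connected := by
  have h := SimpleGraph.cycleGraph_connected (n := 4 * k)
  refine h.mono ?_
  rw [SimpleGraph.cycleGraph_eq_circulantGraph]
  intro u v huv
  unfold circ
  rw [SimpleGraph.circulantGraph_adj] at huv ⊢
  refine ⟨huv.1, ?_⟩
  have h1 : (1 : Fin (4 * k + 1)).val = 1 := by
    rw [Fin.val_one']
    exact Nat.mod_eq_of_lt (by omega)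
  rcases huv.2 with h | h
  · left
    rw [Set.mem_singleton_iff] at h
    rw [Set.mem_setOf_eq, h, h1]
    omega
  · right
    rw [Set.mem_singleton_iff] at h
    rw [Set.mem_setOf_eq, h, h1]
    omega

lemma not_colorable_two (k : ℕ) (hk : 2 ≤ k) : ¬ (circ k).Colorable 2 := by
  intro hc
  obtain ⟨c⟩ := hc
  have a01 : (circ k).Adj ⟨0, by omega⟩ ⟨1, by omega⟩ := by
    rw [adj_iff]; unfold jumps
    simp only [Finset.mem_filter, Finset.mem_univ, true_and, Finset.mem_union, Finset.mem_Icc,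
      Fin.sub_def]
    left
    rw [show 4 * k + 1 - 0 + 1 = 1 + (4 * k + 1) by omega, Nat.add_mod_right,
      Nat.mod_eq_of_lt (by omega)]
    omega
  have a02 : (circ k).Adj ⟨0, by omega⟩ ⟨2, by omega⟩ := by
    rw [adj_iff]; unfold jumps
    simp only [Finset.mem_filter, Finset.mem_univ, true_and, Finset.mem_union, Finset.mem_Icc,
      Fin.sub_def]
    left
    rw [show 4 * k + 1 - 0 + 2 = 2 + (4 * k + 1) by omega, Nat.add_mod_right,
      Nat.mod_eq_of_lt (by omega)]
    omega
  have a12 : (circ k).Adj ⟨1, by omega⟩ ⟨2, by omega⟩ := by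
    rw [adj_iff]; unfold jumps
    simp only [Finset.mem_filter, Finset.mem_univ, true_and, Finset.mem_union, Finset.mem_Icc,
      Fin.sub_def]
    left
    rw [show 4 * k + 1 - 1 + 2 = 1 + (4 * k + 1) by omega, Nat.add_mod_right,
      Nat.mod_eq_of_lt (by omega)]
    omega
  have h1 := c.valid a01
  have h2 := c.valid a02
  have h3 := c.valid a12
  revert h1 h2 h3
  generalize c ⟨0, _⟩ = x
  generalize c ⟨1, _⟩ = y
  generalize c ⟨2, _⟩ = z
  revert x y z
  decide

lemma exists_k (α c : ℝ) (hα : α < 2) (n₀ : ℕ) :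
    ∃ k : ℕ, 2 ≤ k ∧ n₀ ≤ 4 * k + 1 ∧
      c * ((4 * k + 1 : ℕ) : ℝ) ^ α ≤ ((k * (4 * k + 1) : ℕ) : ℝ) := by
  have ht : Filter.Tendsto (fun k : ℕ => (((4 * k + 1 : ℕ) : ℝ)) ^ (2 - α)) Filter.atTop
      Filter.atTop := by
    refine (tendsto_rpow_atTop (by linarith)).comp ?_
    refine tendsto_natCast_atTop_atTop.comp ?_
    refine Filter.tendsto_atTop_mono (f := fun k => k) (fun k => by omega) ?_
    exact Filter.tendsto_id
  have h1 := ht.eventually (Filter.eventually_ge_atTop (8 * c))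
  obtain ⟨k, hk⟩ := (h1.and (Filter.eventually_ge_atTop (n₀ + 2))).exists
  refine ⟨k, by omega, by omega, ?_⟩
  have hn : (0 : ℝ) < ((4 * k + 1 : ℕ) : ℝ) := by positivity
  have h2 : ((4 * k + 1 : ℕ) : ℝ) ^ (2 : ℝ) =
      ((4 * k + 1 : ℕ) : ℝ) ^ (2 - α) * ((4 * k + 1 : ℕ) : ℝ) ^ α := by
    rw [← Real.rpow_add hn]
    norm_num
  have h3 : 8 * c * ((4 * k + 1 : ℕ) : ℝ) ^ α ≤ ((4 * k + 1 : ℕ) : ℝ) ^ (2 : ℝ) := by
    rw [h2]
    exact mul_le_mul_of_nonneg_right hk.1 (by positivity)
  rw [Real.rpow_two] at h3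
  have hk1 : (1 : ℝ) ≤ k := by exact_mod_cast (by omega : 1 ≤ k)
  push_cast at h3 ⊢
  nlinarith [h3, hk1]

lemma turan_two (k : ℕ) : k * (4 * k + 1) ≤ (turanGraph (4 * k + 1) 2).edgeFinset.card := by
  rw [card_edgeFinset_turanGraph]
  have h1 : (4 * k + 1) % 2 = 1 := by omega
  rw [h1]
  have h2 : ((4 * k + 1) ^ 2 - 1 ^ 2) * (2 - 1) / (2 * 2) = 4 * k ^ 2 + 2 * k := by
    rw [show (4 * k + 1) ^ 2 - 1 ^ 2 = 4 * (4 * k ^ 2 + 2 * k) by
      rw [show (4 * k + 1) ^ 2 = 4 * (4 * k ^ 2 + 2 * k) + 1 by ring]; omega]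
    simp
  rw [h2]
  nlinarith

lemma turan_one (n : ℕ) : (turanGraph n 1).edgeSet = ∅ := by
  rw [SimpleGraph.edgeSet_eq_empty]
  ext u v
  simp [turanGraph, Nat.mod_one]

end Pool.Agent.H58.CircMin
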