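import Mathlib
import Pool.Agent.H58.TreeAlpha

set_option autoImplicit false

namespace Pool.Agent.H58.TreeAlpha

open SimpleGraph

universe u

variable {V : Type u} [Fintype V] (G : SimpleGraph V)

open Classical in
/-- every set `I` of at least two vertices is split in proportion at least `1/3` by a cut whose
crossing edges are covered by a set of independence number at most `K`. -/
def Sep (K : ℕ) : Prop :=
  ∀ I : Finset V, 2 ≤ I.card → ∃ A S : Set V,
    I.card ≤ 3 * (I.filter (· ∈ A)).card ∧ I.card ≤ 3 * (I.filter (· ∉ A)).card ∧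
    al G S ≤ K ∧ ∀ a ∈ A, ∀ b, b ∉ A → G.Adj a b → a ∈ S ∨ b ∈ S

/-- one side of the recursion -/
lemma side_bound {K : ℕ} {A S U W' : Set V} {I : Finset V} (hW'U : W' ⊆ U)
    (hIW : (I : Set V) ⊆ W') (hI : G.IsIndepSet (I : Set V)) (hal : al G W' = 6 * K)
    (J : Finset V) (hJI : J ⊆ I) (hJA : ∀ x ∈ J, x ∉ A) (hJ : 6 * K ≤ 3 * J.card)
    (hS : al G S ≤ K) (hcov : ∀ a ∈ A, ∀ b, b ∉ A → G.Adj a b → a ∈ S ∨ b ∈ S) :
    al G ((W' ∩ A) ∪ (U ∩ S)) ≤ 6 * K := by
  classical
  have h1 : al G ((W' ∩ A) ∪ (U ∩ S)) ≤ al G ((W' ∩ A) \ S) + al G S := by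
    refine le_trans (al_mono G ?_) (al_union G _ _)
    intro x hx
    by_cases hxS : x ∈ S
    · exact Or.inr hxS
    · rcases hx with hx | hx
      · exact Or.inl ⟨hx, hxS⟩
      · exact absurd hx.2 hxS
  have h2 : K ≤ al G ((W' \ A) \ S) := by
    have h3 : J.card ≤ al G ((W' \ A) \ S) + al G S := by
      refine le_trans (le_al G (X := ((W' \ A) \ S) ∪ S) (S := J) ?_ ?_) (al_union G _ _)
      · intro x hx
        by_cases hxS : x ∈ S
        · exact Or.inr hxS
        · exact Or.inl ⟨⟨hIW (hJI hx), hJA x hx⟩, hxS⟩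
      · exact Set.Pairwise.mono (by exact_mod_cast hJI) hI
    omega
  have h4 : al G ((W' ∩ A) \ S) + al G ((W' \ A) \ S) ≤ al G W' := by
    refine al_add_le G ?_ ?_ ?_ ?_
    · intro x hx
      exact hx.1.1
    · intro x hx
      exact hx.1.1
    · rw [Set.disjoint_left]
      intro x hx hx'
      exact hx'.1.2 hx.1.2
    · intro x hx y hy hxy
      rcases hcov x hx.1.2 y hy.1.2 hxy with h | h
      · exact hx.2 h
      · exact hy.2 h
  omega

theorem rec_main {K : ℕ} (hK : 1 ≤ K) (hsep : Sep G K) :
    ∀ n : ℕ, ∀ U W : Set V, U.ncard = n → W ⊆ U → al G W ≤ 6 * K → HasTD G U (7 * K) W := by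
  classical
  intro n
  induction n using Nat.strong_induction_on with
  | _ n ih =>
    intro U W hn hWU hW
    rcases Nat.lt_or_ge (al G U) (7 * K) with hU | hU
    · exact (HasTD.single G hU.le).mono G hWU
    obtain ⟨W', hWW', hW'U, hW'⟩ := exists_between G hWU hW (by omega : 6 * K ≤ al G U)
    obtain ⟨I, hIW, hI, hIcard⟩ := exists_al G W'
    rw [hW'] at hIcard
    obtain ⟨A, S, hA1, hA2, hS, hcov⟩ := hsep I (by omega)
    rw [hIcard] at hA1 hA2
    set J1 := I.filter (· ∉ A) with hJ1
    set J2 := I.filter (· ∈ A) with hJ2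
    have hcov' : ∀ a ∈ Aᶜ, ∀ b, b ∉ Aᶜ → G.Adj a b → a ∈ S ∨ b ∈ S := by
      intro a ha b hb hab
      have hb' : b ∈ A := by
        by_contra h
        exact hb h
      exact (hcov b hb' a ha hab.symm).symm
    have hb1 : al G ((W' ∩ A) ∪ (U ∩ S)) ≤ 6 * K :=
      side_bound G hW'U hIW hI hW' J1 (Finset.filter_subset _ _)
        (fun x hx => (Finset.mem_filter.mp hx).2) hA2 hS hcov
    have hb2 : al G ((W' ∩ Aᶜ) ∪ (U ∩ S)) ≤ 6 * K :=
      side_bound G hW'U hIW hI hW' J2 (Finset.filter_subset _ _)
        (fun x hx => by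
          intro h
          exact h (Finset.mem_filter.mp hx).2) hA1 hS hcov'
    -- the two sides are proper
    have hex1 : ∃ x ∈ U, x ∉ A ∧ x ∉ S := by
      by_contra hcon
      push Not at hcon
      have h3 : J1.card ≤ al G S := by
        refine le_al G ?_ ?_
        · intro x hx
          have hx' := Finset.mem_filter.mp (Finset.mem_coe.mp hx)
          exact hcon x (hW'U (hIW hx'.1)) hx'.2
        · exact Set.Pairwise.mono (by exact_mod_cast Finset.filter_subset _ _) hI
      omega
    have hex2 : ∃ x ∈ U, x ∈ A ∧ x ∉ S := by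
      by_contra hcon
      push Not at hcon
      have h3 : J2.card ≤ al G S := by
        refine le_al G ?_ ?_
        · intro x hx
          have hx' := Finset.mem_filter.mp (Finset.mem_coe.mp hx)
          exact hcon x (hW'U (hIW hx'.1)) hx'.2
        · exact Set.Pairwise.mono (by exact_mod_cast Finset.filter_subset _ _) hI
      omega
    have hlt1 : ((U ∩ A) ∪ (U ∩ S)).ncard < n := by
      rw [← hn]
      refine Set.ncard_lt_ncard ?_ (Set.toFinite _)
      refine ⟨Set.union_subset Set.inter_subset_left Set.inter_subset_left, ?_⟩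
      intro h
      obtain ⟨x, hx, hxA, hxS⟩ := hex1
      rcases h hx with h | h
      · exact hxA h.2
      · exact hxS h.2
    have hlt2 : ((U ∩ Aᶜ) ∪ (U ∩ S)).ncard < n := by
      rw [← hn]
      refine Set.ncard_lt_ncard ?_ (Set.toFinite _)
      refine ⟨Set.union_subset Set.inter_subset_left Set.inter_subset_left, ?_⟩
      intro h
      obtain ⟨x, hx, hxA, hxS⟩ := hex2
      rcases h hx with h | h
      · exact h.2 hxA
      · exact hxS h.2
    have D1 := ih _ hlt1 ((U ∩ A) ∪ (U ∩ S)) ((W' ∩ A) ∪ (U ∩ S)) rfl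
      (Set.union_subset_union_left _ (Set.inter_subset_inter_left _ hW'U)) hb1
    have D2 := ih _ hlt2 ((U ∩ Aᶜ) ∪ (U ∩ S)) ((W' ∩ Aᶜ) ∪ (U ∩ S)) rfl
      (Set.union_subset_union_left _ (Set.inter_subset_inter_left _ hW'U)) hb2
    have hroot : al G (W' ∪ (U ∩ S)) ≤ 7 * K := by
      have h1 := al_union G W' (U ∩ S)
      have h2 : al G (U ∩ S) ≤ al G S := al_mono G Set.inter_subset_right
      omega
    have D0 : HasTD G (W' ∪ (U ∩ S)) (7 * K) (W' ∪ (U ∩ S)) := HasTD.single G hroot
    have E1 := HasTD.glue G D0 D1 (R := W' ∪ (U ∩ S)) (R' := (W' ∩ A) ∪ (U ∩ S))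
      (fun x hx => hx.1)
      (by
        rintro x ⟨hx1, hx2⟩
        rcases hx2 with hx2 | hx2
        · rcases hx1 with hx1 | hx1
          · exact Or.inl ⟨hx1, hx2.2⟩
          · exact Or.inr hx1
        · exact Or.inr hx2)
      (by
        rintro x ⟨hx1, hx2⟩ y ⟨hy1, hy2⟩ hxy
        have hyA : y ∈ A := by
          rcases hy1 with h | h
          · exact h.2
          · exact absurd (Or.inr h) hy2
        have hyS : y ∉ S := by
          intro h
          rcases hy1 with h' | h'
          · exact hy2 (Or.inr ⟨h'.1, h⟩)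
          · exact hy2 (Or.inr h')
        have hxU : x ∈ U := by
          rcases hx1 with h | h
          · exact hW'U h
          · exact h.1
        have hxA : x ∉ A := fun h => hx2 (Or.inl ⟨hxU, h⟩)
        have hxS : x ∉ S := fun h => hx2 (Or.inr ⟨hxU, h⟩)
        rcases hcov y hyA x hxA hxy.symm with h | h
        · exact hyS h
        · exact hxS h)
    have E2 := HasTD.glue G E1 D2 (R' := (W' ∩ Aᶜ) ∪ (U ∩ S))
      (by
        rintro x ⟨hx1, hx2⟩
        rcases hx1 with hx1 | hx1
        · exact hx1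
        · rcases hx1 with hx1 | hx1
          · rcases hx2 with hx2 | hx2
            · exact absurd hx1.2 hx2.2
            · exact Or.inr hx2
          · exact Or.inr hx1)
      (by
        rintro x ⟨hx1, hx2⟩
        rcases hx2 with hx2 | hx2
        · rcases hx1 with hx1 | hx1
          · rcases hx1 with hx1 | hx1
            · exact Or.inl ⟨hx1, hx2.2⟩
            · exact Or.inr hx1
          · rcases hx1 with hx1 | hx1
            · exact absurd hx1.2 hx2.2
            · exact Or.inr hx1
        · exact Or.inr hx2)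
      (by
        rintro x ⟨hx1, hx2⟩ y ⟨hy1, hy2⟩ hxy
        have hyU : y ∈ U := by
          rcases hy1 with h | h
          · exact h.1
          · exact h.1
        have hyS : y ∉ S := fun h => hy2 (Or.inl (Or.inr ⟨hyU, h⟩))
        have hyA : y ∉ A := fun h => hy2 (Or.inr (Or.inl ⟨hyU, h⟩))
        have hxU : x ∈ U := by
          rcases hx1 with h | h
          · rcases h with h | h
            · exact hW'U h
            · exact h.1
          · rcases h with h | h
            · exact h.1
            · exact h.1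
        have hxS : x ∉ S := fun h => hx2 (Or.inr ⟨hxU, h⟩)
        have hxA : x ∈ A := by
          by_contra h
          exact hx2 (Or.inl ⟨hxU, h⟩)
        rcases hcov x hxA y hyA hxy with h | h
        · exact hxS h
        · exact hyS h)
    have hUeq : W' ∪ U ∩ S ∪ (U ∩ A ∪ U ∩ S) ∪ (U ∩ Aᶜ ∪ U ∩ S) = U := by
      ext x
      constructor
      · rintro ((((h | h)) | (h | h)) | (h | h))
        · exact hW'U h
        · exact h.1
        · exact h.1
        · exact h.1
        · exact h.1
        · exact h.1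
      · intro hx
        by_cases hxA : x ∈ A
        · exact Or.inl (Or.inr (Or.inl ⟨hx, hxA⟩))
        · exact Or.inr (Or.inl ⟨hx, hxA⟩)
    rw [hUeq] at E2
    exact E2.mono G (hWW'.trans Set.subset_union_left)

end Pool.Agent.H58.TreeAlpha
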